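import Pool.Agent.Run7.h745.AH.Iface
import Pool.Agent.Run7.h745.Prt
import Pool.Agent.Run7.h745.KT3

/-!
# MP_501a10_an, piece RK: projections over level `n`
-/

set_option autoImplicit false
set_option linter.unusedSectionVars false

noncomputable section

namespace Run7.h745.AH

open Filter Topology Matrix Pool.Agent.H188R3 Pool.Agent.TH249
open scoped ComplexOrder

namespace RK

/-! ### Flattening -/

section fl
variable {s : ℕ → Bool} {n : ℕ} {K L M : Type}

/-- a matrix over level `n` at a point, as a complex matrix -/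
def fl (a : Matrix K L (A s n)) (t : Fin (n + 1)) (y : X n t) :
    Matrix (K × Fin (N s n t)) (L × Fin (N s n t)) ℂ :=
  Matrix.of fun p q => (a p.1 q.1 t y).en p.2 q.2

lemma fl_mul [Fintype L] (a : Matrix K L (A s n)) (b : Matrix L M (A s n)) (t : Fin (n + 1))
    (y : X n t) : fl (a * b) t y = fl a t y * fl b t y := by
  ext p q
  rw [Matrix.mul_apply, Fintype.sum_prod_type]
  show ((a * b) p.1 q.1 t y).en p.2 q.2 = _
  rw [Matrix.mul_apply, Finset.sum_apply, ContinuousMap.sum_apply, MA.en_sum]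
  rfl

lemma fl_star (a : Matrix K L (A s n)) (t : Fin (n + 1)) (y : X n t) :
    fl aᴴ t y = (fl a t y)ᴴ := by
  ext p q
  rfl

lemma fl_ext {a b : Matrix K L (A s n)} (h : ∀ t y, fl a t y = fl b t y) : a = b := by
  ext k l t y i j
  exact congrFun (congrFun (h t y) (k, i)) (l, j)

lemma continuous_en {I : Type} [Fintype I] [DecidableEq I] (i j : I) :
    Continuous fun x : MA I ℂ => x.en i j := by
  have h : Continuous fun x : Matrix I I ℂ => x i j := continuous_apply_apply i j
  exact h

lemma continuous_fl (a : Matrix K L (A s n)) (t : Fin (n + 1)) : Continuous (fl a t) := by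
  refine continuous_pi fun p => continuous_pi fun q => ?_
  exact (continuous_en p.2 q.2).comp (a p.1 q.1 t).continuous

/-- inverse of the flattening -/
def un (g : ∀ t : Fin (n + 1), C(X n t, Matrix (K × Fin (N s n t)) (L × Fin (N s n t)) ℂ)) :
    Matrix K L (A s n) :=
  Matrix.of fun k l t => ⟨fun y => MA.of fun i j => g t y (k, i) (l, j), by
    have h : Continuous fun y : X n t =>
        (show Matrix (Fin (N s n t)) (Fin (N s n t)) ℂ from fun i j => g t y (k, i) (l, j)) := by
      refine continuous_pi fun i => continuous_pi fun j => ?_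
      exact (continuous_apply_apply (k, i) (l, j)).comp (g t).continuous
    exact h⟩

lemma fl_un (g : ∀ t : Fin (n + 1), C(X n t, Matrix (K × Fin (N s n t)) (L × Fin (N s n t)) ℂ))
    (t : Fin (n + 1)) (y : X n t) : fl (un g) t y = g t y := by
  ext p q
  rfl

lemma trace_fl [Fintype K] (a : Matrix K K (A s n)) (t : Fin (n + 1)) (y : X n t) :
    (fl a t y).trace = nt (Matrix.trace a) t y * N s n t := by
  have hN : (N s n t : ℂ) ≠ 0 := by exact_mod_cast (N_pos s n t).ne'
  unfold nt ntr
  rw [Fintype.card_fin, div_mul_cancel₀ _ hN]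
  unfold Matrix.trace
  rw [Fintype.sum_prod_type_right]
  refine Finset.sum_congr rfl fun i _ => ?_
  rw [Finset.sum_apply, ContinuousMap.sum_apply, MA.en_sum]
  rfl

lemma fl_isPrj [Fintype K] {a : Matrix K K (A s n)} (h : IsPrj a) (t : Fin (n + 1)) (y : X n t) :
    (fl a t y)ᴴ = fl a t y ∧ fl a t y * fl a t y = fl a t y := by
  refine ⟨?_, ?_⟩
  · rw [← fl_star, h.1]
  · rw [← fl_mul, h.2]

end fl

/-! ### Diagonal projections -/

/-- the partial isometry between diagonal projections -/
def sh (k' k r : ℕ) : Matrix (Fin k') (Fin k) ℂ :=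
  Matrix.of fun i j => if (i : ℕ) = j ∧ (j : ℕ) < r then 1 else 0

lemma sh_star (k' k r : ℕ) : (sh k' k r)ᴴ = sh k k' r := by
  ext i j
  simp only [sh, conjTranspose_apply, of_apply]
  by_cases h : (j : ℕ) = i
  · by_cases h' : (i : ℕ) < r
    · rw [if_pos ⟨h, h'⟩, if_pos ⟨h.symm, by omega⟩, star_one]
    · rw [if_neg (fun hh => h' hh.2), if_neg (fun hh => h' (by omega)), star_zero]
  · rw [if_neg (fun hh => h hh.1), if_neg (fun hh => h hh.1.symm), star_zero]

lemma sh_mul (k k' r : ℕ) (hr : r ≤ k') : sh k k' r * sh k' k r = diagProj k r := by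
  ext i j
  rw [Matrix.mul_apply]
  simp only [sh, diagProj, of_apply, diagonal_apply]
  by_cases hi : (i : ℕ) < r
  · rw [Finset.sum_eq_single ⟨i, lt_of_lt_of_le hi hr⟩]
    · by_cases hij : i = j
      · subst hij
        simp [hi]
      · have : ¬ ((i : ℕ) = j) := fun h => hij (Fin.ext h)
        simp [hij, this]
    · intro b _ hb
      have : ¬ ((i : ℕ) = b) := fun h => hb (Fin.ext h.symm)
      simp [this]
    · simp
  · rw [Finset.sum_eq_zero]
    · by_cases hij : i = j
      · subst hij; simp [hi]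
      · simp [hij]
    · intro b _
      by_cases hb : (i : ℕ) = b
      · have : ¬ ((b : ℕ) < r) := by omega
        simp [this]
      · simp [hb]

lemma trace_diagProj (k r : ℕ) (hr : r ≤ k) : (diagProj k r).trace = (r : ℂ) := by
  unfold diagProj
  rw [Matrix.trace_diagonal]
  have h : ∑ i : Fin k, (if (i : ℕ) < r then (1 : ℂ) else 0) =
      ∑ i ∈ Finset.range k, (if i < r then (1 : ℂ) else 0) :=
    Fin.sum_univ_eq_sum_range (fun i => if i < r then (1 : ℂ) else 0) k
  rw [h, Finset.sum_ite, Finset.sum_const_zero, add_zero, Finset.sum_const, nsmul_eq_mul, mul_one]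
  congr 1
  have h2 : (Finset.range k).filter (fun i => i < r) = Finset.range r := by
    ext i; simp only [Finset.mem_filter, Finset.mem_range]; omega
  rw [h2, Finset.card_range]

lemma diagProj_star (k r : ℕ) : (diagProj k r)ᴴ = diagProj k r := by
  unfold diagProj
  rw [diagonal_conjTranspose]
  congr 1
  funext i
  simp only [Pi.star_apply]
  split_ifs <;> simp

lemma diagProj_mul (k r : ℕ) : diagProj k r * diagProj k r = diagProj k r := by
  unfold diagProj
  rw [diagonal_mul_diagonal]
  congr 1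
  funext i
  split_ifs <;> simp

/-! ### Trivialisation -/

lemma triv (W : Type) [TopologicalSpace W] [CompactSpace W] [T2Space W] [ContractibleSpace W]
    {I : Type} [Fintype I] [DecidableEq I] (k : ℕ) (e : I ≃ Fin k) (g : W → Matrix I I ℂ)
    (hgc : Continuous g) (hg : ∀ w, (g w)ᴴ = g w ∧ g w * g w = g w) :
    ∃ (r : ℕ) (U : C(W, Matrix (Fin k) I ℂ)), r ≤ k ∧ (∀ w, (U w)ᴴ * U w = g w) ∧
      ∀ w, U w * (U w)ᴴ = diagProj k r := by
  obtain ⟨r, U, hr, h1, h2⟩ := prt3 W k ⟨fun w => Mat.of ((g w).submatrix e.symm e.symm), by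
      refine Mat.continuous_of.comp ?_
      exact hgc.matrix_submatrix _ _⟩ (by
    intro w
    show IsStarProjection (Mat.of ((g w).submatrix e.symm e.symm))
    refine ⟨?_, ?_⟩
    · show Mat.of _ * Mat.of _ = Mat.of _
      rw [← map_mul, submatrix_mul_equiv, (hg w).2]
    · show star (Mat.of _) = Mat.of _
      rw [← map_star, star_eq_conjTranspose, conjTranspose_submatrix, (hg w).1])
  refine ⟨r, ⟨fun w => (Mat.of.symm (U w)).submatrix id e, ?_⟩, hr, ?_, ?_⟩
  · exact (Mat.continuous_of_symm.comp U.continuous).matrix_submatrix _ _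
  · intro w
    have h3 : (Mat.of.symm (U w))ᴴ * Mat.of.symm (U w) = (g w).submatrix e.symm e.symm := by
      have := congrArg Mat.of.symm (h1 w)
      rw [map_mul, map_star] at this
      exact this
    show ((Mat.of.symm (U w)).submatrix id e)ᴴ * (Mat.of.symm (U w)).submatrix id e = g w
    rw [conjTranspose_submatrix]
    have h4 : ((Mat.of.symm (U w))ᴴ).submatrix e id * (Mat.of.symm (U w)).submatrix id e =
        ((Mat.of.symm (U w))ᴴ * Mat.of.symm (U w)).submatrix e e := by
      ext i j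
      rfl
    rw [h4, h3, submatrix_submatrix]
    ext i j
    simp
  · intro w
    have h3 : Mat.of.symm (U w) * (Mat.of.symm (U w))ᴴ = diagProj k r := by
      have := congrArg Mat.of.symm (h2 w)
      rw [map_mul, map_star] at this
      exact this
    show (Mat.of.symm (U w)).submatrix id e * ((Mat.of.symm (U w)).submatrix id e)ᴴ = _
    rw [conjTranspose_submatrix, ← h3]
    ext i j
    rw [Matrix.mul_apply, Matrix.mul_apply]
    exact Equiv.sum_comp e (fun c => (Mat.of.symm (U w)) i c * ((Mat.of.symm (U w))ᴴ) c j)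

/-! ### Contractibility -/

lemma contractible_X (n t : ℕ) : ContractibleSpace (X n t) := by
  rw [contractible_iff_id_nullhomotopic]
  refine ⟨fun _ => z0 t, ⟨⟨⟨fun p i => scL (unitInterval.symm p.1) (p.2 i), ?_⟩, ?_, ?_⟩⟩⟩
  · refine continuous_pi fun i => Continuous.subtype_mk (continuous_pi fun a =>
      continuous_pi fun b => ?_) _
    refine (continuous_subtype_val.comp (unitInterval.continuous_symm.comp continuous_fst)).mul ?_
    exact (continuous_apply b).comp ((continuous_apply a).comp (continuous_subtype_val.comp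
      ((continuous_apply i).comp continuous_snd)))
  · intro w
    funext i
    refine Subtype.ext (funext fun a => funext fun b => ?_)
    show (unitInterval.symm 0 : unitInterval).1 * _ = _
    simp
  · intro w
    funext i
    refine Subtype.ext (funext fun a => funext fun b => ?_)
    show (unitInterval.symm 1 : unitInterval).1 * _ = (0 : ℝ)
    simp

/-! ### The piece -/

section main
variable {s : ℕ → Bool} {n : ℕ}

lemma key (P : Prj (A s n)) (t : Fin (n + 1)) :
    ∃ (r : ℕ) (U : C(X n t, Matrix (Fin (P.n * N s n t)) (Fin P.n × Fin (N s n t)) ℂ)),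
      r ≤ P.n * N s n t ∧ (∀ w, (U w)ᴴ * U w = fl P.mat t w) ∧
      (∀ w, U w * (U w)ᴴ = diagProj (P.n * N s n t) r) ∧
      ∀ y, nt (Matrix.trace P.mat) t y = (r : ℂ) / N s n t := by
  have := contractible_X n t
  obtain ⟨r, U, hr, h1, h2⟩ := triv (X n t) (P.n * N s n t) finProdFinEquiv (fl P.mat t)
    (continuous_fl _ _) (fl_isPrj P.isPrj t)
  refine ⟨r, U, hr, h1, h2, fun y => ?_⟩
  have hN : (N s n t : ℂ) ≠ 0 := by exact_mod_cast (N_pos s n t).ne'
  rw [eq_div_iff hN, ← trace_fl, ← h1 y, Matrix.trace_mul_comm, h2 y, trace_diagProj _ _ hr]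

lemma nt_eq_of_eqv {P Q : Prj (A s n)} (h : Eqv P.mat Q.mat) (t : Fin (n + 1)) (y : X n t) :
    nt (Matrix.trace P.mat) t y = nt (Matrix.trace Q.mat) t y := by
  have hN : (N s n t : ℂ) ≠ 0 := by exact_mod_cast (N_pos s n t).ne'
  apply mul_right_cancel₀ hN
  obtain ⟨v, h1, h2⟩ := h
  rw [← trace_fl, ← trace_fl, ← h1, ← h2, fl_mul, fl_mul, Matrix.trace_mul_comm]

lemma eqv_of_nt {P Q : Prj (A s n)}
    (h : ∀ t y, nt (Matrix.trace P.mat) t y = nt (Matrix.trace Q.mat) t y) :
    Eqv P.mat Q.mat := by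
  choose r U hr h1 h2 h3 using key P
  choose r' U' hr' h1' h2' h3' using key Q
  have hrr : ∀ t, r t = r' t := by
    intro t
    have hN : (N s n t : ℂ) ≠ 0 := by exact_mod_cast (N_pos s n t).ne'
    have h4 := h t (x0 n t)
    rw [h3, h3', div_left_inj' hN] at h4
    exact_mod_cast h4
  refine ⟨un fun t => ⟨fun y => (U' t y)ᴴ * (sh (Q.n * N s n t) (P.n * N s n t) (r t) * U t y),
    ?_⟩, ?_, ?_⟩
  · exact ((U' t).continuous.matrix_conjTranspose).matrix_mul
      (continuous_const.matrix_mul (U t).continuous)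
  · refine fl_ext fun t y => ?_
    rw [fl_mul, fl_star, fl_un]
    show ((U' t y)ᴴ * (sh (Q.n * N s n t) (P.n * N s n t) (r t) * U t y))ᴴ *
      ((U' t y)ᴴ * (sh (Q.n * N s n t) (P.n * N s n t) (r t) * U t y)) = _
    rw [conjTranspose_mul, conjTranspose_mul, conjTranspose_conjTranspose, sh_star]
    have e1 : (U t y)ᴴ * sh (P.n * N s n t) (Q.n * N s n t) (r t) * U' t y *
        ((U' t y)ᴴ * (sh (Q.n * N s n t) (P.n * N s n t) (r t) * U t y)) =
        (U t y)ᴴ * (sh (P.n * N s n t) (Q.n * N s n t) (r t) * (U' t y * (U' t y)ᴴ) *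
          sh (Q.n * N s n t) (P.n * N s n t) (r t)) * U t y := by
      simp only [Matrix.mul_assoc]
    rw [e1, h2', ← hrr, ← sh_mul (Q.n * N s n t) (P.n * N s n t) (r t) (hr t)]
    have e2 : sh (P.n * N s n t) (Q.n * N s n t) (r t) *
        (sh (Q.n * N s n t) (P.n * N s n t) (r t) * sh (P.n * N s n t) (Q.n * N s n t) (r t)) *
        sh (Q.n * N s n t) (P.n * N s n t) (r t) =
        (sh (P.n * N s n t) (Q.n * N s n t) (r t) * sh (Q.n * N s n t) (P.n * N s n t) (r t)) *
        (sh (P.n * N s n t) (Q.n * N s n t) (r t) * sh (Q.n * N s n t) (P.n * N s n t) (r t)) := by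
      simp only [Matrix.mul_assoc]
    rw [e2, sh_mul _ _ _ (by rw [hrr]; exact hr' t), diagProj_mul, ← h2 t y]
    have e3 : (U t y)ᴴ * (U t y * (U t y)ᴴ) * U t y = ((U t y)ᴴ * U t y) * ((U t y)ᴴ * U t y) := by
      simp only [Matrix.mul_assoc]
    rw [e3, h1, (fl_isPrj P.isPrj t y).2]
  · refine fl_ext fun t y => ?_
    rw [fl_mul, fl_star, fl_un]
    show ((U' t y)ᴴ * (sh (Q.n * N s n t) (P.n * N s n t) (r t) * U t y)) *
      ((U' t y)ᴴ * (sh (Q.n * N s n t) (P.n * N s n t) (r t) * U t y))ᴴ = _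
    rw [conjTranspose_mul, conjTranspose_mul, conjTranspose_conjTranspose, sh_star]
    have e1 : (U' t y)ᴴ * (sh (Q.n * N s n t) (P.n * N s n t) (r t) * U t y) *
        ((U t y)ᴴ * sh (P.n * N s n t) (Q.n * N s n t) (r t) * U' t y) =
        (U' t y)ᴴ * (sh (Q.n * N s n t) (P.n * N s n t) (r t) * (U t y * (U t y)ᴴ) *
          sh (P.n * N s n t) (Q.n * N s n t) (r t)) * U' t y := by
      simp only [Matrix.mul_assoc]
    rw [e1, h2, ← sh_mul (P.n * N s n t) (Q.n * N s n t) (r t) (by rw [hrr]; exact hr' t)]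
    have e2 : sh (Q.n * N s n t) (P.n * N s n t) (r t) *
        (sh (P.n * N s n t) (Q.n * N s n t) (r t) * sh (Q.n * N s n t) (P.n * N s n t) (r t)) *
        sh (P.n * N s n t) (Q.n * N s n t) (r t) =
        (sh (Q.n * N s n t) (P.n * N s n t) (r t) * sh (P.n * N s n t) (Q.n * N s n t) (r t)) *
        (sh (Q.n * N s n t) (P.n * N s n t) (r t) * sh (P.n * N s n t) (Q.n * N s n t) (r t)) := by
      simp only [Matrix.mul_assoc]
    rw [e2, sh_mul _ _ _ (hr t), diagProj_mul, hrr, ← h2' t y]
    have e3 : (U' t y)ᴴ * (U' t y * (U' t y)ᴴ) * U' t y =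
        ((U' t y)ᴴ * U' t y) * ((U' t y)ᴴ * U' t y) := by
      simp only [Matrix.mul_assoc]
    rw [e3, h1', (fl_isPrj Q.isPrj t y).2]

lemma exists_prj (r : Fin (n + 1) → ℕ) : ∃ P : Prj (A s n), ∀ t y,
    nt (Matrix.trace P.mat) t y = (r t : ℂ) / N s n t := by
  set m : ℕ := ∑ t, r t with hm
  have hle : ∀ t : Fin (n + 1), r t ≤ m * N s n t := by
    intro t
    calc r t ≤ m := Finset.single_le_sum (f := r) (fun _ _ => Nat.zero_le _) (Finset.mem_univ t)
      _ = m * 1 := (mul_one m).symm
      _ ≤ m * N s n t := Nat.mul_le_mul_left _ (N_pos s n t)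
  let g : ∀ t : Fin (n + 1), C(X n t, Matrix (Fin m × Fin (N s n t)) (Fin m × Fin (N s n t)) ℂ) :=
    fun t => ContinuousMap.const _
      ((diagProj (m * N s n t) (r t)).submatrix finProdFinEquiv finProdFinEquiv)
  refine ⟨⟨m, un g, ?_, ?_⟩, fun t y => ?_⟩
  · refine fl_ext fun t y => ?_
    rw [fl_star, fl_un]
    show ((diagProj (m * N s n t) (r t)).submatrix finProdFinEquiv finProdFinEquiv)ᴴ = _
    rw [conjTranspose_submatrix, diagProj_star]
    rfl
  · refine fl_ext fun t y => ?_
    rw [fl_mul, fl_un]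
    show (diagProj (m * N s n t) (r t)).submatrix finProdFinEquiv finProdFinEquiv *
      (diagProj (m * N s n t) (r t)).submatrix finProdFinEquiv finProdFinEquiv = _
    rw [submatrix_mul_equiv, diagProj_mul]
    rfl
  · have hN : (N s n t : ℂ) ≠ 0 := by exact_mod_cast (N_pos s n t).ne'
    rw [eq_div_iff hN, ← trace_fl, fl_un, ← trace_diagProj _ _ (hle t)]
    show Matrix.trace ((diagProj (m * N s n t) (r t)).submatrix finProdFinEquiv finProdFinEquiv) = _
    exact Equiv.sum_comp finProdFinEquiv (fun i => diagProj (m * N s n t) (r t) i i)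

end main

end RK

/-- RK. -/
theorem t_RK : S_RK := by
  intro s n
  refine ⟨fun P => ?_, fun P Q h => RK.eqv_of_nt h, fun P Q h => RK.nt_eq_of_eqv h,
    RK.exists_prj⟩
  choose r U hr h1 h2 h3 using RK.key P
  exact ⟨r, h3⟩

end Run7.h745.AH
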